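import Pool.Agent.H67.Mc5

namespace Pool.Agent.Results.MP_001d24_al.DimTwo

theorem result : ∀ (A : Type) [CommGroup A] [Finite A] (B : Set H67.Mc.Cond),
    H67.Mc.IsBasis (H67.Mc.varOf A) B → B.encard ≤ 2 :=
  fun _ _ _ B h => H67.Mc.basis_le B h

end Pool.Agent.Results.MP_001d24_al.DimTwo
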